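import Mathlib
import Pool.Agent.Y84.LL.Main

set_option autoImplicit false

/-!
The local loop lemma for odd cycles under absorption.
-/

namespace Pool.Agent.Results.MP_511665_al.LocalLoopLemma

universe u

/-- The operation `f` is idempotent. -/
def Idem {A : Type u} {n : ℕ} (f : (Fin n → A) → A) : Prop :=
  ∀ x : A, f (fun _ => x) = x

/-- The operation `f` is compatible with the relation `R`. -/
def Compatible {A : Type u} {n : ℕ} (f : (Fin n → A) → A) (R : A → A → Prop) : Prop :=
  ∀ x y : Fin n → A, (∀ i, R (x i) (y i)) → R (f x) (f y)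

/-- `B` absorbs `C` with respect to `f`. -/
def Absorbs {A : Type u} {n : ℕ} (f : (Fin n → A) → A) (B C : Set A) : Prop :=
  ∀ (j : Fin n) (b : Fin n → A) (c : A), (∀ i, b i ∈ B) → c ∈ C → f (Function.update b j c) ∈ B

/-- `(c 0, …, c (l - 1))` is a closed walk of odd length `l`: neighbouring entries, and the last and
the first entry, are related. The entries need not be distinct, so this contains all odd cycles. -/
def OddClosed {A : Type u} (R : A → A → Prop) (l : ℕ) (c : Fin l → A) : Prop :=
  Odd l ∧ ∀ i j : Fin l, (j : ℕ) = (i + 1) % l → R (c i) (c j)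

/-- Let `R` be a symmetric relation on a set `A` which contains an odd cycle through `a`. Let `f` be
an idempotent operation on `A` which is compatible with `R` such that the set of neighbours of `a`
absorbs `{a}` with respect to `f`. Then `R` has a loop. -/
theorem result (A : Type u) (R : A → A → Prop) (hR : ∀ x y, R x y → R y x) (l : ℕ)
    (c : Fin l → A) (hc : OddClosed R l c) (n : ℕ) (f : (Fin n → A) → A) (hid : Idem f)
    (hcomp : Compatible f R) (a : A) (ha : ∀ i : Fin l, (i : ℕ) = 0 → c i = a) (habs : Absorbs f {b | R a b} {a}) :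
    ∃ x, R x x := by
  classical
  obtain ⟨hodd, hw⟩ := hc
  have hl : 0 < l := hodd.pos
  let O : ℕ → A := fun s => c ⟨(s + 1) % l, Nat.mod_lt _ hl⟩
  have h0 : c ⟨0, hl⟩ = a := ha _ rfl
  have hO1 : R a (O 0) := by
    rw [← h0]
    exact hw _ _ rfl
  have hO2 : ∀ s, R (O s) (O (s + 1)) := by
    intro s
    apply hw
    show (s + 1 + 1) % l = ((s + 1) % l + 1) % l
    rw [Nat.mod_add_mod]
  refine Pool.Agent.Y84.LL.exists_loop (a := a) (f := f) hR hid hcomp ?_ O
    ⟨hO1, hO2⟩ (l - 1) ?_ ?_
  · intro i x hxi hx
    have h1 := habs i (Function.update x i (O 0)) a (by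
      intro j
      by_cases hji : j = i
      · rw [hji, Function.update_self]
        exact hO1
      · rw [Function.update_of_ne hji]
        exact hx j hji) rfl
    rw [Function.update_idem, ← hxi, Function.update_eq_self] at h1
    rw [← hxi]
    exact h1
  · obtain ⟨k, hk⟩ := hodd
    omega
  · show c ⟨(l - 1 + 1) % l, _⟩ = a
    have e : (l - 1 + 1) % l = 0 := by
      rw [Nat.sub_add_cancel hl, Nat.mod_self]
    exact ha _ e

end Pool.Agent.Results.MP_511665_al.LocalLoopLemma
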